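import Pool.Agent.BC.Stmts

/-!
# BC: the lower inequality is likely (module RDO)
-/

set_option autoImplicit false

open Finset

noncomputable section

namespace Pool.Agent.BC.H3

section Tools

variable {t : ℕ}

lemma av_mono {m : ℕ} {G H : (Fin t → ℤ) → ℝ} {c : Fin t → ℤ} (h : ∀ d, G d ≤ H d) :
    av m G c ≤ av m H c := by
  unfold av
  simp only [smul_eq_mul]
  apply mul_le_mul_of_nonneg_left _ (by positivity)
  exact Finset.sum_le_sum fun r _ => h _

lemma av_sum {V : Type} [AddCommGroup V] [Module ℝ V] {ι : Type*} (S : Finset ι) (m : ℕ)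
    (G : ι → (Fin t → ℤ) → V) (c : Fin t → ℤ) :
    av m (fun d => ∑ k ∈ S, G k d) c = ∑ k ∈ S, av m (G k) c := by
  unfold av
  rw [Finset.sum_comm, Finset.smul_sum]

lemma av_const {V : Type} [AddCommGroup V] [Module ℝ V] (m : ℕ) (v : V) (c : Fin t → ℤ) :
    av m (fun _ => v) c = v := by
  unfold av
  rw [Finset.sum_const, Finset.card_univ, Fintype.card_fun, Fintype.card_fin, Fintype.card_fin,
    ← Nat.cast_smul_eq_nsmul ℝ, smul_smul]
  push_cast
  rw [inv_mul_cancel₀ (by positivity), one_smul]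

lemma av1_const {V : Type} [AddCommGroup V] [Module ℝ V] (m : ℕ) (v : V) (j : ℤ) :
    av1 m (fun _ => v) j = v := by
  unfold av1
  rw [Finset.sum_const, Finset.card_univ, Fintype.card_fin,
    ← Nat.cast_smul_eq_nsmul ℝ, smul_smul]
  push_cast
  rw [inv_mul_cancel₀ (by positivity), one_smul]

lemma av_add {V : Type} [AddCommGroup V] [Module ℝ V] (m : ℕ) (G H : (Fin t → ℤ) → V)
    (c : Fin t → ℤ) : av m (fun d => G d + H d) c = av m G c + av m H c := by
  unfold av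
  rw [Finset.sum_add_distrib, smul_add]

lemma av_sub {V : Type} [AddCommGroup V] [Module ℝ V] (m : ℕ) (G H : (Fin t → ℤ) → V)
    (c : Fin t → ℤ) : av m (fun d => G d - H d) c = av m G c - av m H c := by
  unfold av
  rw [Finset.sum_sub_distrib, smul_sub]

lemma av1_sub {V : Type} [AddCommGroup V] [Module ℝ V] (m : ℕ) (G H : ℤ → V)
    (j : ℤ) : av1 m (fun d => G d - H d) j = av1 m G j - av1 m H j := by
  unfold av1
  rw [Finset.sum_sub_distrib, smul_sub]

lemma av_mul (m : ℕ) (G : (Fin t → ℤ) → ℝ) (u : ℝ) (c : Fin t → ℤ) :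
    av m (fun d => u * G d) c = u * av m G c := by
  unfold av
  rw [← Finset.mul_sum]
  simp only [smul_eq_mul]
  ring

lemma av1_mul (m : ℕ) (G : ℤ → ℝ) (u : ℝ) (j : ℤ) :
    av1 m (fun d => u * G d) j = u * av1 m G j := by
  unfold av1
  rw [← Finset.mul_sum]
  simp only [smul_eq_mul]
  ring

lemma av_lin {V W : Type} [AddCommGroup V] [Module ℝ V] [AddCommGroup W] [Module ℝ W]
    (f : V →ₗ[ℝ] W) (m : ℕ) (G : (Fin t → ℤ) → V) (c : Fin t → ℤ) :
    av m (fun d => f (G d)) c = f (av m G c) := by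
  unfold av
  rw [map_smul, map_sum]

lemma av1_lin {V W : Type} [AddCommGroup V] [Module ℝ V] [AddCommGroup W] [Module ℝ W]
    (f : V →ₗ[ℝ] W) (m : ℕ) (G : ℤ → V) (j : ℤ) :
    av1 m (fun d => f (G d)) j = f (av1 m G j) := by
  unfold av1
  rw [map_smul, map_sum]

lemma av1_mono {m : ℕ} {G H : ℤ → ℝ} {j : ℤ} (h : ∀ d, G d ≤ H d) :
    av1 m G j ≤ av1 m H j := by
  unfold av1
  simp only [smul_eq_mul]
  apply mul_le_mul_of_nonneg_left _ (by positivity)
  exact Finset.sum_le_sum fun r _ => h _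

/-- union bound -/
lemma bad_union {ι : Type*} (S : Finset ι) (m : ℕ) (A : ι → (Fin t → ℤ) → Prop)
    (B : (Fin t → ℤ) → Prop) (c : Fin t → ℤ) (h : ∀ d, (∀ k ∈ S, A k d) → B d) :
    bad m B c ≤ ∑ k ∈ S, bad m (A k) c := by
  classical
  unfold bad
  rw [← av_sum]
  apply av_mono
  intro d
  have hnn : ∀ k ∈ S, (0 : ℝ) ≤ if A k d then (0 : ℝ) else 1 := by
    intro k _
    split_ifs <;> norm_num
  by_cases hB : B d
  · rw [if_pos hB]
    exact Finset.sum_nonneg hnn
  · rw [if_neg hB]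
    have : ∃ k ∈ S, ¬ A k d := by
      by_contra hcon
      push Not at hcon
      exact hB (h d hcon)
    obtain ⟨k, hk, hA⟩ := this
    have h1 := Finset.single_le_sum hnn hk
    rw [if_neg hA] at h1
    exact h1

/-- Chebyshev -/
lemma bad1_cheb (m : ℕ) (g : ℤ → ℝ) (η : ℝ) (hη : 0 < η) (j : ℤ) :
    bad1 m (fun k => |g k| ≤ η) j ≤ av1 m (fun k => |g k| ^ 2) j / η ^ 2 := by
  classical
  unfold bad1
  rw [div_eq_inv_mul, ← av1_mul]
  apply av1_mono
  intro k
  have h2 : (0 : ℝ) ≤ (η ^ 2)⁻¹ * |g k| ^ 2 := by positivity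
  split_ifs with h
  · exact h2
  · push Not at h
    rw [← div_eq_inv_mul, le_div_iff₀ (by positivity), one_mul]
    exact pow_le_pow_left₀ hη.le h.le 2

lemma bad_marg (hMar : MarStmt) (m : ℕ) (i : Fin t) (A : ℤ → Prop) (c : Fin t → ℤ) :
    bad m (fun d => A (d i)) c = bad1 m A (c i) := by
  classical
  unfold bad bad1
  exact (hMar ℝ m).2 t i (fun k => if A k then (0 : ℝ) else 1) c

end Tools

section Main

variable {X : Type} [NormedAddCommGroup X] [NormedSpace ℝ X]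

lemma J_smul (x : ℕ → ℤ → X) {t : ℕ} (n : ℕ) (c : Fin t → ℤ) (a : Fin t → ℝ) (u : ℝ) :
    J x n c (fun i => u * a i) = u • J x n c a := by
  unfold J
  rw [Finset.smul_sum]
  exact Finset.sum_congr rfl fun i _ => mul_smul _ _ _

lemma J_Rr (x : ℕ → ℤ → X) {t : ℕ} (s : Fin t) (n : ℕ) (c : Fin t → ℤ) (a : Fin (t + 1) → ℝ) :
    J x n c (Rr s a) = J x n (c ∘ pr s) a := by
  unfold J Rr
  rw [Fin.sum_univ_castSucc]
  simp only [add_smul, ite_smul, zero_smul, Finset.sum_add_distrib, Finset.sum_ite_eq',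
    Finset.mem_univ, if_true, Function.comp, pr, Fin.lastCases_castSucc, Fin.lastCases_last]

/-- the variance of one coordinate -/
lemma one_coord (hIso : IsoStmt) (hJen : JenStmt) {x : ℕ → ℤ → X} (hx : IsT x) {t n : ℕ}
    {c : Fin t → ℤ} {κ β : ℝ} (hst : Stab x κ n c) (α : Fin t → ℝ)
    (hα : ∀ i, |α i| ≤ 3) (hβ : 0 < β) (hα' : ∀ i, β / 2 ≤ |α i|) (f : X →L[ℝ] ℝ) (hf : ‖f‖ ≤ 1)
    (hfn : f (J x n c α) = ‖J x n c α‖) (m : ℕ) (i : Fin t) :
    av1 m (fun k => |f (x (n + m) k) - f (x n (c i))| ^ 2) (c i) ≤ 36 * κ / β ^ 2 := by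
  obtain ⟨hmart, _, _, hJ⟩ := hJen X x hx
  -- stability, scaled
  have h1 : av m (fun d => ‖J x (n + m) d α‖ ^ 2) c ≤ ‖J x n c α‖ ^ 2 + 9 * κ := by
    have h := hst m (fun i => (1 / 3) * α i) (by
      intro i
      rw [abs_mul, abs_of_pos (by norm_num : (0 : ℝ) < 1 / 3)]
      linarith [hα i])
    have e1 : ∀ (N : ℕ) (d : Fin t → ℤ), ‖J x N d (fun i => (1 / 3) * α i)‖ ^ 2 =
        (1 / 9) * ‖J x N d α‖ ^ 2 := by
      intro N d
      rw [J_smul, norm_smul, mul_pow]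
      norm_num
    simp only [e1] at h
    rw [av_mul] at h
    linarith
  -- the functional
  have h2 : av m (fun d => f (J x (n + m) d α)) c = ‖J x n c α‖ := by
    have := av_lin (f : X →ₗ[ℝ] ℝ) m (fun d => J x (n + m) d α) c
    simp only [ContinuousLinearMap.coe_coe] at this
    rw [this, (hJ t n m c α).1, hfn]
  have h3 : av m (fun d => (f (J x (n + m) d α) - ‖J x n c α‖) ^ 2) c ≤ 9 * κ := by
    have e : ∀ d : Fin t → ℤ, (f (J x (n + m) d α) - ‖J x n c α‖) ^ 2 ≤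
        ‖J x (n + m) d α‖ ^ 2 - (2 * ‖J x n c α‖) * f (J x (n + m) d α) +
          ‖J x n c α‖ ^ 2 := by
      intro d
      have hb : |f (J x (n + m) d α)| ≤ ‖J x (n + m) d α‖ := by
        have := f.le_opNorm (J x (n + m) d α)
        rw [Real.norm_eq_abs] at this
        calc _ ≤ _ := this
          _ ≤ 1 * ‖J x (n + m) d α‖ := mul_le_mul_of_nonneg_right hf (norm_nonneg _)
          _ = _ := one_mul _
      have hb2 : f (J x (n + m) d α) ^ 2 ≤ ‖J x (n + m) d α‖ ^ 2 := by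
        rw [← sq_abs]
        exact pow_le_pow_left₀ (abs_nonneg _) hb 2
      nlinarith [hb2]
    calc _ ≤ _ := av_mono e
      _ = av m (fun d => ‖J x (n + m) d α‖ ^ 2) c -
          (2 * ‖J x n c α‖) * av m (fun d => f (J x (n + m) d α)) c + ‖J x n c α‖ ^ 2 := by
        rw [av_add, av_sub, av_mul, av_const]
      _ ≤ 9 * κ := by
        rw [h2]
        nlinarith [h1]
  -- ISO
  set Z : Fin t → ℤ → ℝ := fun l k => α l * (f (x (n + m) k) - f (x n (c l))) with hZ
  have h4 := hIso ℝ t m Z c i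
  have hmean : ∀ l, av1 m (Z l) (c l) = 0 := by
    intro l
    rw [hZ]
    simp only
    rw [av1_mul, av1_sub, av1_const]
    have := av1_lin (f : X →ₗ[ℝ] ℝ) m (x (n + m)) (c l)
    simp only [ContinuousLinearMap.coe_coe] at this
    rw [this, hmart n m (c l), sub_self, mul_zero]
  have hsum : ∀ d : Fin t → ℤ, ∑ l, Z l (d l) = f (J x (n + m) d α) - ‖J x n c α‖ := by
    intro d
    rw [← hfn]
    unfold J
    rw [map_sum, map_sum, ← Finset.sum_sub_distrib]
    refine Finset.sum_congr rfl fun l _ => ?_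
    rw [hZ, map_smul, map_smul]
    simp only [smul_eq_mul]
    ring
  simp only [hmean, Finset.sum_const_zero, zero_add, hsum, Real.norm_eq_abs, sq_abs] at h4
  have h5 := le_trans h4 h3
  rw [hZ] at h5
  simp only [mul_pow] at h5
  rw [av1_mul] at h5
  have h6 : β ^ 2 / 4 ≤ α i ^ 2 := by
    rw [← sq_abs (α i)]
    have := pow_le_pow_left₀ (by positivity) (hα' i) 2
    calc _ = (β / 2) ^ 2 := by ring
      _ ≤ _ := this
  have h7 : 0 ≤ av1 m (fun k => (f (x (n + m) k) - f (x n (c i))) ^ 2) (c i) := by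
    unfold av1
    positivity
  simp only [sq_abs]
  rw [le_div_iff₀ (by positivity)]
  nlinarith [mul_le_mul_of_nonneg_right h6 h7]

/-- the net -/
def net (N : ℕ) {t : ℕ} (k : Fin t → Fin (2 * N)) (i : Fin t) : ℝ :=
  3 / N * ((k i : ℕ) - N + 1 / 2)

lemma net_le {N : ℕ} (hN : 0 < N) {t : ℕ} (k : Fin t → Fin (2 * N)) (i : Fin t) :
    |net N k i| ≤ 3 := by
  have hN' : (0 : ℝ) < N := by exact_mod_cast hN
  unfold net
  have h1 : ((k i : ℕ) : ℝ) + 1 ≤ 2 * N := by exact_mod_cast (k i).isLt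
  have h0 : (0 : ℝ) ≤ ((k i : ℕ) : ℝ) := Nat.cast_nonneg _
  rw [abs_mul, abs_of_pos (by positivity : (0 : ℝ) < 3 / N), div_mul_eq_mul_div, div_le_iff₀ hN']
  have : |((k i : ℕ) : ℝ) - N + 1 / 2| ≤ N := by
    rw [abs_le]
    constructor <;> linarith
  linarith

lemma net_ge {N : ℕ} (hN : 0 < N) {t : ℕ} (k : Fin t → Fin (2 * N)) (i : Fin t) :
    3 / (N : ℝ) / 2 ≤ |net N k i| := by
  have hN' : (0 : ℝ) < N := by exact_mod_cast hN
  unfold net
  rw [abs_mul, abs_of_pos (by positivity : (0 : ℝ) < 3 / N), div_eq_mul_one_div]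
  apply mul_le_mul_of_nonneg_left _ (by positivity)
  rcases le_or_gt N (k i : ℕ) with h | h
  · have : (N : ℝ) ≤ ((k i : ℕ) : ℝ) := by exact_mod_cast h
    rw [le_abs]
    left; linarith
  · have : ((k i : ℕ) : ℝ) + 1 ≤ N := by exact_mod_cast h
    rw [le_abs]
    right; linarith

lemma net_near {N : ℕ} (hN : 0 < N) {t : ℕ} (y : Fin t → ℝ) (hy : ∀ i, |y i| ≤ 2) :
    ∃ k : Fin t → Fin (2 * N), ∀ i, |y i - net N k i| ≤ 3 / N := by
  have hN' : (0 : ℝ) < N := by exact_mod_cast hN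
  have hex : ∀ i, ∃ k : Fin (2 * N), |y i - 3 / N * ((k : ℕ) - N + 1 / 2)| ≤ 3 / N := by
    intro i
    have hβ : (0 : ℝ) < 3 / N := by positivity
    set z : ℤ := ⌊y i / (3 / N)⌋ + N with hz
    have hfl := Int.floor_le (y i / (3 / N))
    have hfl' := Int.lt_floor_add_one (y i / (3 / N))
    have hy1 := (abs_le.1 (hy i)).1
    have hy2 := (abs_le.1 (hy i)).2
    have hq : y i / (3 / N) = y i * N / 3 := by field_simp
    have hz0 : 0 ≤ z := by
      have : -(N : ℤ) ≤ ⌊y i / (3 / N)⌋ := by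
        rw [Int.le_floor]
        push_cast
        rw [hq]
        nlinarith
      omega
    have hz1 : z < 2 * N := by
      have : ⌊y i / (3 / N)⌋ < (N : ℤ) := by
        rw [Int.floor_lt]
        push_cast
        rw [hq]
        nlinarith
      omega
    obtain ⟨k, hk⟩ := Int.eq_ofNat_of_zero_le hz0
    refine ⟨⟨k, by omega⟩, ?_⟩
    simp only
    have hk' : ((k : ℕ) : ℝ) = (⌊y i / (3 / N)⌋ : ℝ) + N := by
      have : ((k : ℤ) : ℝ) = ((⌊y i / (3 / N)⌋ + N : ℤ) : ℝ) := by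
        rw [← hz, hk]
      push_cast at this
      exact this
    rw [hk']
    have e : y i = 3 / N * (y i / (3 / N)) := by field_simp
    have e2 : y i - 3 / N * ((⌊y i / (3 / N)⌋ : ℝ) + N - N + 1 / 2) =
        3 / N * (y i / (3 / N) - ⌊y i / (3 / N)⌋ - 1 / 2) := by
      conv_lhs => rw [e]
      have : (3 / (N : ℝ) * (y i / (3 / ↑N)) / (3 / ↑N)) = y i / (3 / N) := by field_simp
      rw [this]
      ring
    rw [e2, abs_mul, abs_of_pos hβ]
    have : |y i / (3 / N) - ⌊y i / (3 / N)⌋ - 1 / 2| ≤ 1 := by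
      rw [abs_le]
      constructor <;> linarith
    calc _ ≤ 3 / (N : ℝ) * 1 := mul_le_mul_of_nonneg_left this hβ.le
      _ = _ := mul_one _
  choose k hk using hex
  exact ⟨k, hk⟩

lemma J_diff {x : ℕ → ℤ → X} (hx : IsT x) {t : ℕ} (n : ℕ) (c : Fin t → ℤ) (a b : Fin t → ℝ)
    (δ : ℝ) (h : ∀ i, |a i - b i| ≤ δ) : ‖J x n c a - J x n c b‖ ≤ t * δ := by
  unfold J
  rw [← Finset.sum_sub_distrib]
  calc _ ≤ ∑ i : Fin t, ‖a i • x n (c i) - b i • x n (c i)‖ := norm_sum_le _ _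
    _ ≤ ∑ _i : Fin t, δ := by
      apply Finset.sum_le_sum
      intro i _
      rw [← sub_smul, norm_smul, Real.norm_eq_abs]
      calc |a i - b i| * ‖x n (c i)‖ ≤ |a i - b i| * 1 :=
            mul_le_mul_of_nonneg_left (hx.1 _ _) (abs_nonneg _)
        _ ≤ δ := by rw [mul_one]; exact h i
    _ = t * δ := by simp

lemma f_le {f : X →L[ℝ] ℝ} (hf : ‖f‖ ≤ 1) (v : X) : |f v| ≤ ‖v‖ := by
  have := f.le_opNorm v
  rw [Real.norm_eq_abs] at this
  calc _ ≤ _ := this
    _ ≤ 1 * ‖v‖ := mul_le_mul_of_nonneg_right hf (norm_nonneg _)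
    _ = _ := one_mul _

lemma Rr_le {t : ℕ} (s : Fin t) (a : Fin (t + 1) → ℝ) (ha : ∀ i, |a i| ≤ 1) (i : Fin t) :
    |Rr s a i| ≤ 2 := by
  unfold Rr
  refine (abs_add_le _ _).trans ?_
  have h1 := ha i.castSucc
  have h2 : |if i = s then a (Fin.last t) else 0| ≤ 1 := by
    split_ifs
    · exact ha _
    · simp
  linarith

/-- RDO: the lower inequality is likely. -/
theorem rdo (hIso : IsoStmt) (hMar : MarStmt) (hJen : JenStmt) : RdoStmt := by
  intro X _ _ t s η hη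
  obtain ⟨N, hN0⟩ := exists_nat_gt (12 * (t : ℝ) / η)
  have hNpos' : (0 : ℝ) < N := lt_of_le_of_lt (by positivity) hN0
  have hNpos : 0 < N := by exact_mod_cast hNpos'
  have hN1 : (t : ℝ) * (3 / N) ≤ η / 4 := by
    rw [div_lt_iff₀ hη] at hN0
    rw [mul_div_assoc', div_le_iff₀ hNpos']
    linarith
  have hβ : (0 : ℝ) < 3 / N := by positivity
  set η' : ℝ := η / (2 * (t + 1)) with hη'
  have hη'0 : 0 < η' := by positivity
  have hη'1 : ((t : ℝ) + 1) * η' = η / 2 := by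
    rw [hη']
    field_simp
  set ι := (Fin t → Fin (2 * N)) × Fin (t + 1)
  set Q : ℝ := (Fintype.card ι : ℝ) + 1 with hQ
  have hQ0 : 0 < Q := by positivity
  refine ⟨η * ((3 / N) ^ 2 * η' ^ 2) / (36 * Q), by positivity, ?_⟩
  intro x n c hx hst m
  set κ : ℝ := η * ((3 / N) ^ 2 * η' ^ 2) / (36 * Q) with hκ
  have hdual : ∀ k : Fin t → Fin (2 * N), ∃ f : X →L[ℝ] ℝ, ‖f‖ ≤ 1 ∧
      f (J x n c (net N k)) = ‖J x n c (net N k)‖ := by
    intro k
    obtain ⟨g, hg, hg'⟩ := exists_dual_vector'' ℝ (J x n c (net N k))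
    exact ⟨g, hg, by simpa using hg'⟩
  choose F hF hF' using hdual
  set A : ι → (Fin (t + 1) → ℤ) → Prop := fun p d =>
    |F p.1 (x (n + m) (d p.2)) - F p.1 (x n (c (pr s p.2)))| ≤ η' with hA
  have himp : ∀ d, (∀ p ∈ (Finset.univ : Finset ι), A p d) → Lo x s η n c (n + m) d := by
    intro d hd a ha
    obtain ⟨k, hk⟩ := net_near hNpos (Rr s a) (Rr_le s a ha)
    have h1 := J_diff hx n c (Rr s a) (net N k) _ hk
    have h1' : ‖J x n c (Rr s a)‖ - ‖J x n c (net N k)‖ ≤ t * (3 / N) :=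
      (norm_sub_norm_le _ _).trans h1
    have h3 : F k (J x n c (net N k)) - F k (J x n c (Rr s a)) ≤ t * (3 / N) := by
      rw [← map_sub]
      calc _ ≤ _ := le_abs_self _
        _ ≤ _ := f_le (hF k) _
        _ ≤ _ := by rw [norm_sub_rev]; exact h1
    have h4 : F k (J x n c (Rr s a)) - F k (J x (n + m) d a) ≤ ((t : ℝ) + 1) * η' := by
      rw [J_Rr]
      unfold J
      rw [map_sum, map_sum, ← Finset.sum_sub_distrib]
      calc _ ≤ ∑ _i : Fin (t + 1), η' := by
            apply Finset.sum_le_sum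
            intro i _
            rw [map_smul, map_smul, smul_eq_mul, smul_eq_mul, ← mul_sub]
            have hAi := hd (k, i) (Finset.mem_univ _)
            rw [hA] at hAi
            simp only at hAi
            rw [abs_sub_comm] at hAi
            calc _ ≤ _ := le_abs_self _
              _ = |a i| * |F k (x n ((c ∘ pr s) i)) - F k (x (n + m) (d i))| := abs_mul _ _
              _ ≤ 1 * η' := mul_le_mul (ha i) hAi (abs_nonneg _) zero_le_one
              _ = η' := one_mul _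
        _ = _ := by simp
    have h5 : F k (J x (n + m) d a) ≤ ‖J x (n + m) d a‖ :=
      (le_abs_self _).trans (f_le (hF k) _)
    have h6 := hF' k
    linarith
  have hprob : ∀ p ∈ (Finset.univ : Finset ι),
      bad m (A p) (c ∘ pr s) ≤ 36 * κ / (3 / N) ^ 2 / η' ^ 2 := by
    intro p _
    have e := bad_marg hMar m p.2 (fun k =>
      |F p.1 (x (n + m) k) - F p.1 (x n (c (pr s p.2)))| ≤ η') (c ∘ pr s)
    rw [hA]
    simp only
    rw [e]
    refine (bad1_cheb m (fun k => F p.1 (x (n + m) k) - F p.1 (x n (c (pr s p.2)))) η' hη'0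
      _).trans ?_
    apply div_le_div_of_nonneg_right _ (by positivity)
    exact one_coord hIso hJen hx hst (net N p.1) (net_le hNpos p.1) hβ (net_ge hNpos p.1)
      (F p.1) (hF p.1) (hF' p.1) m (pr s p.2)
  calc _ ≤ _ := bad_union Finset.univ m A _ _ himp
    _ ≤ ∑ _p : ι, 36 * κ / (3 / N) ^ 2 / η' ^ 2 := Finset.sum_le_sum hprob
    _ = (Fintype.card ι : ℝ) * (36 * κ / (3 / N) ^ 2 / η' ^ 2) := by
      rw [Finset.sum_const, Finset.card_univ, nsmul_eq_mul]
    _ = (Fintype.card ι : ℝ) * η / Q := by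
      rw [hκ]
      field_simp
    _ ≤ η := by
      rw [div_le_iff₀ hQ0, hQ]
      nlinarith

end Main

end Pool.Agent.BC.H3
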